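import Pool.Agent.TH976.Circ
import Pool.Agent.J6H72.LP.Topo

/-!
Project SL, item PL: a full circuit around a vertex meets the crossings of the annulus and blocks
the dual paths.
-/

set_option autoImplicit false

namespace Pool.Agent.J6H95.SL
open Finset H974 TH976
open Pool.Agent.H160R2.CV Pool.Agent.H160R2.CV.Quad
open Pool.Agent.J6H72.LP (Wt Wt_path first_leave block_v block_h)
open H973 (dlt dlt_pos dlt_le rswL)

/-- four crossings around `c`, at distances between `R` and `3 R` -/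
def CE (c : Vtx) (R : ℕ) (F : Finset Edg) : Prop :=
  (TBc (c.1 + R) (c.1 + 3 * R) (c.2 - 3 * R) (c.2 + 3 * R) F ∧
    LRc (c.1 - 3 * R) (c.1 + 3 * R) (c.2 + R) (c.2 + 3 * R) F) ∧
  (TBc (c.1 - 3 * R) (c.1 - R) (c.2 - 3 * R) (c.2 + 3 * R) F ∧
    LRc (c.1 - 3 * R) (c.1 + 3 * R) (c.2 - 3 * R) (c.2 - R) F)

theorem CE.mono {c : Vtx} {R : ℕ} {F G : Finset Edg} (h : F ⊆ G) (hF : CE c R F) : CE c R G :=
  ⟨⟨hF.1.1.mono h, hF.1.2.mono h⟩, ⟨hF.2.1.mono h, hF.2.2.mono h⟩⟩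

theorem CE_incr (S : Finset Edg) (c : Vtx) (R : ℕ) : IncrE S (CE c R) :=
  fun _ _ h _ hF => hF.mono h

theorem pr_CE {c : Vtx} {R : ℕ} (hR : 1 ≤ R) {S : Finset Edg}
    (hS : RE (c.1 - 3 * R) (c.1 + 3 * R) (c.2 - 3 * R) (c.2 + 3 * R) ⊆ S) :
    dlt ^ 4 ≤ Pr P S (CE c R) := by
  have hR' : (1 : ℤ) ≤ R := by exact_mod_cast hR
  have d0 := dlt_pos
  have e1 : dlt ≤ Pr P S (TBc (c.1 + R) (c.1 + 3 * R) (c.2 - 3 * R) (c.2 + 3 * R)) :=
    pr_TB ((RE_subset (by omega) le_rfl le_rfl le_rfl).trans hS) (m := R) (by omega) (by omega)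
      (by omega) (by omega)
  have e2 : dlt ≤ Pr P S (LRc (c.1 - 3 * R) (c.1 + 3 * R) (c.2 + R) (c.2 + 3 * R)) :=
    pr_LR ((RE_subset le_rfl le_rfl (by omega) le_rfl).trans hS) (m := R) (by omega) (by omega)
      (by omega) (by omega)
  have e3 : dlt ≤ Pr P S (TBc (c.1 - 3 * R) (c.1 - R) (c.2 - 3 * R) (c.2 + 3 * R)) :=
    pr_TB ((RE_subset le_rfl (by omega) le_rfl le_rfl).trans hS) (m := R) (by omega) (by omega)
      (by omega) (by omega)
  have e4 : dlt ≤ Pr P S (LRc (c.1 - 3 * R) (c.1 + 3 * R) (c.2 - 3 * R) (c.2 - R)) :=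
    pr_LR ((RE_subset le_rfl le_rfl le_rfl (by omega)).trans hS) (m := R) (by omega) (by omega)
      (by omega) (by omega)
  have i1 := fkg (S := S) (TBc_incr _ _ _ _ _) (LRc_incr _ _ _ _ _) d0.le e1 e2
  have i2 := fkg (S := S) (TBc_incr _ _ _ _ _) (LRc_incr _ _ _ _ _) d0.le e3 e4
  have i3 := fkg (incr_and (TBc_incr _ _ _ _ _) (LRc_incr _ _ _ _ _))
    (incr_and (TBc_incr _ _ _ _ _) (LRc_incr _ _ _ _ _)) (by positivity) i1 i2
  calc dlt ^ 4 = dlt * dlt * (dlt * dlt) := by ring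
    _ ≤ _ := i3

theorem CE_hub {c : Vtx} {R : ℕ} (hR : 1 ≤ R) {F : Finset Edg} (h : CE c R F) :
    ∃ z0 : Vtx,
      (∀ u v : Vtx, sd u c ≤ R → 3 * R ≤ sd v c → Reach (↑F) u v → Reach (↑F) u z0) ∧
      (∀ g : Vtx, 3 * R < sd g c → ¬ DReach (Wt (↑F) z0)ᶜ c g) := by
  obtain ⟨⟨hr0, ht0⟩, hl0, hb0⟩ := h
  obtain ⟨c1, c2⟩ := c
  simp only at hr0 ht0 hl0 hb0
  obtain ⟨xr, xr', hxr, hxr', hr⟩ := hr0
  obtain ⟨yt, yt', hyt, hyt', ht⟩ := ht0
  obtain ⟨xl, xl', hxl, hxl', hl⟩ := hl0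
  obtain ⟨yb, yb', hyb, hyb', hb⟩ := hb0
  have hR' : (1 : ℤ) ≤ R := by exact_mod_cast hR
  have hr' := hr.mono (Set.inter_subset_inter_right (↑F : Set Edg)
    (by exact_mod_cast TBE_subset_RE :
      (↑(TBE (c1 + R) (c1 + 3 * R) (c2 - 3 * R) (c2 + 3 * R)) : Set Edg) ⊆ _))
  have hl' := hl.mono (Set.inter_subset_inter_right (↑F : Set Edg)
    (by exact_mod_cast TBE_subset_RE :
      (↑(TBE (c1 - 3 * R) (c1 - R) (c2 - 3 * R) (c2 + 3 * R)) : Set Edg) ⊆ _))
  have ht' := ht.mono (Set.inter_subset_inter_right (↑F : Set Edg)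
    (by exact_mod_cast LRE_subset_RE :
      (↑(LRE (c1 - 3 * R) (c1 + 3 * R) (c2 + R) (c2 + 3 * R)) : Set Edg) ⊆ _))
  have hb' := hb.mono (Set.inter_subset_inter_right (↑F : Set Edg)
    (by exact_mod_cast LRE_subset_RE :
      (↑(LRE (c1 - 3 * R) (c1 + 3 * R) (c2 - 3 * R) (c2 - R)) : Set Edg) ⊆ _))
  have mTR : Reach (↑F ∩ ↑(RE (c1 - 3 * R) (c1 + 3 * R) (c2 - 3 * R)
      (c2 + 3 * R))) (c1 - 3 * (R : ℤ), yt) (xr, c2 - 3 * (R : ℤ)) :=
    cross_meet (a := c1 + R) (b := c1 + 3 * R) (c := c2 + R) (d := c2 + 3 * R) (by omega)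
      (by omega) le_rfl (by omega) (by omega) le_rfl ht' (by simp only; omega)
      (by simp only; omega) hr' (by simp only; omega) (by simp only; omega)
  have mTL : Reach (↑F ∩ ↑(RE (c1 - 3 * R) (c1 + 3 * R) (c2 - 3 * R)
      (c2 + 3 * R))) (c1 - 3 * (R : ℤ), yt) (xl, c2 - 3 * (R : ℤ)) :=
    cross_meet (a := c1 - 3 * R) (b := c1 - R) (c := c2 + R) (d := c2 + 3 * R) le_rfl
      (by omega) (by omega) (by omega) (by omega) le_rfl ht' (by simp only; omega)
      (by simp only; omega) hl' (by simp only; omega) (by simp only; omega)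
  have mBR : Reach (↑F ∩ ↑(RE (c1 - 3 * R) (c1 + 3 * R) (c2 - 3 * R)
      (c2 + 3 * R))) (c1 - 3 * (R : ℤ), yb) (xr, c2 - 3 * (R : ℤ)) :=
    cross_meet (a := c1 + R) (b := c1 + 3 * R) (c := c2 - 3 * R) (d := c2 - R) (by omega)
      (by omega) le_rfl le_rfl (by omega) (by omega) hb' (by simp only; omega)
      (by simp only; omega) hr' (by simp only; omega) (by simp only; omega)
  have i1 : (↑F : Set Edg) ∩ ↑(RE (c1 - 3 * R) (c1 + 3 * R) (c2 - 3 * R) (c2 + 3 * R)) ⊆ ↑F :=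
    Set.inter_subset_left
  refine ⟨(xr, c2 - 3 * (R : ℤ)), ?_, ?_⟩
  · -- the circuit meets the crossings
    intro u v huc hvc huv
    unfold sd at huc hvc
    simp only at huc hvc
    obtain ⟨w, h1, h2, h3⟩ := first_exit (a := c1 - 3 * R) (b := c1 + 3 * R) (c := c2 - 3 * R)
      (d := c2 + 3 * R) (by unfold inR; omega) huv (by omega)
    unfold inR at h1
    rcases h2 with h2 | h2 | h2 | h2
    · have m : Reach (↑F ∩ ↑(RE (c1 - 3 * R) (c1 + 3 * R) (c2 - 3 * R)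
          (c2 + 3 * R))) w (xl, c2 - 3 * (R : ℤ)) :=
        cross_meet (a := c1 - 3 * R) (b := c1 - R) (c := c2 - 3 * R) (d := c2 + 3 * R)
          (by omega) (by omega) (by omega) le_rfl (by omega) le_rfl h3.symm (by omega)
          (by omega) hl' (by simp only; omega) (by simp only; omega)
      exact (h3.trans (m.trans (mTL.symm.trans mTR))).mono i1
    · exact (cross_meet (a := c1 + R) (b := c1 + 3 * R) (c := c2 - 3 * R)
        (d := c2 + 3 * R) (by omega) (by omega) le_rfl le_rfl (by omega) le_rfl h3 (by omega)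
        h2.ge hr' (by simp only; omega) (by simp only; omega)).mono i1
    · have m : Reach (↑F ∩ ↑(RE (c1 - 3 * R) (c1 + 3 * R) (c2 - 3 * R)
          (c2 + 3 * R))) (c1 - 3 * (R : ℤ), yb) w :=
        cross_meet (a := c1 - 3 * R) (b := c1 + 3 * R) (c := c2 - 3 * R) (d := c2 - R)
          le_rfl (by omega) le_rfl (by omega) (by omega) (by omega) hb' (by simp only; omega)
          (by simp only; omega) h3.symm (by omega) (by omega)
      exact (h3.trans (m.symm.trans mBR)).mono i1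
    · have m : Reach (↑F ∩ ↑(RE (c1 - 3 * R) (c1 + 3 * R) (c2 - 3 * R)
          (c2 + 3 * R))) (c1 - 3 * (R : ℤ), yt) u :=
        cross_meet (a := c1 - 3 * R) (b := c1 + 3 * R) (c := c2 + R) (d := c2 + 3 * R)
          le_rfl (by omega) le_rfl (by omega) (by omega) le_rfl ht' (by simp only; omega)
          (by simp only; omega) h3 (by omega) (by omega)
      exact (m.symm.trans mTR).mono i1
  · -- the circuit blocks the dual paths
    intro g hg hd
    unfold sd at hg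
    simp only at hg
    set z0 : Vtx := (xr, c2 - 3 * (R : ℤ)) with hz0
    obtain ⟨K, hK⟩ : ∃ K, K = Wt (↑F) z0 := ⟨_, rfl⟩
    rw [← hK] at hd
    have kr := Wt_path (Reach.refl (↑F : Set Edg) z0) hr
    have kl := Wt_path ((mTR.symm.trans mTL).mono i1) hl
    have kt := Wt_path (mTR.symm.mono i1) ht
    have kb := Wt_path (mBR.symm.mono i1) hb
    rw [← hK] at kr kl kt kb
    obtain ⟨w, w', hw, hw', hadj, hpath⟩ := first_leave (a := c1 - 3 * R) (b := c1 + 3 * R - 1)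
      (c := c2 - 3 * R) (d := c2 + 3 * R - 1) (u := (c1, c2)) (v := g)
      (by unfold inR; simp only; omega) (reach_dl.mpr hd) (by unfold inR; omega)
    have ext : ∀ A B C D : ℤ, A ≤ c1 - 3 * R → c1 + 3 * R - 1 ≤ B → C ≤ c2 - 3 * R →
        c2 + 3 * R - 1 ≤ D → (inR A B C D w') →
        Reach (dl '' Kᶜ ∩ ↑(RE A B C D)) (c1, c2) w' := by
      intro A B C D hA hB hC hD hin
      have s1 : dl '' Kᶜ ∩ ↑(RE (c1 - 3 * R) (c1 + 3 * R - 1) (c2 - 3 * R) (c2 + 3 * R - 1)) ⊆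
          dl '' Kᶜ ∩ ↑(RE A B C D) :=
        Set.inter_subset_inter_right _ (by exact_mod_cast RE_subset hA hB hC hD)
      refine (hpath.mono s1).trans (Adj.reach ?_)
      obtain ⟨e, he, hcase⟩ := hadj
      refine ⟨e, ⟨he, Finset.mem_coe.mpr ?_⟩, hcase⟩
      obtain ⟨x0, y0, bo⟩ := e
      unfold inR at hw hin
      cases bo
      · simp only [src_mk, tgt_false] at hcase
        rw [mem_RE_false]
        rcases hcase with ⟨h3, h4⟩ | ⟨h3, h4⟩
        · rw [← h3] at hw; rw [← h4] at hin; simp only at hw hin; omega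
        · rw [← h4] at hw; rw [← h3] at hin; simp only at hw hin; omega
      · simp only [src_mk, tgt_true] at hcase
        rw [mem_RE_true]
        rcases hcase with ⟨h3, h4⟩ | ⟨h3, h4⟩
        · rw [← h3] at hw; rw [← h4] at hin; simp only at hw hin; omega
        · rw [← h4] at hw; rw [← h3] at hin; simp only at hw hin; omega
    have hdir : (w'.1 = c1 + 3 * R ∧ (c2 - 3 * R ≤ w'.2 ∧ w'.2 ≤ c2 + 3 * R - 1)) ∨
        (w'.1 = c1 - 3 * R - 1 ∧ (c2 - 3 * R ≤ w'.2 ∧ w'.2 ≤ c2 + 3 * R - 1)) ∨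
        (w'.2 = c2 + 3 * R ∧ (c1 - 3 * R ≤ w'.1 ∧ w'.1 ≤ c1 + 3 * R - 1)) ∨
        (w'.2 = c2 - 3 * R - 1 ∧ (c1 - 3 * R ≤ w'.1 ∧ w'.1 ≤ c1 + 3 * R - 1)) := by
      obtain ⟨⟨x0, y0, bo⟩, -, hcase⟩ := hadj
      unfold inR at hw hw'
      cases bo
      · simp only [src_mk, tgt_false] at hcase
        rcases hcase with ⟨h3, h4⟩ | ⟨h3, h4⟩
        · rw [← h3] at hw; rw [← h4] at hw' ⊢; simp only at hw hw' ⊢; omega
        · rw [← h4] at hw; rw [← h3] at hw' ⊢; simp only at hw hw' ⊢; omega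
      · simp only [src_mk, tgt_true] at hcase
        rcases hcase with ⟨h3, h4⟩ | ⟨h3, h4⟩
        · rw [← h3] at hw; rw [← h4] at hw' ⊢; simp only at hw hw' ⊢; omega
        · rw [← h4] at hw; rw [← h3] at hw' ⊢; simp only at hw hw' ⊢; omega
    rcases hdir with ⟨k1, k2⟩ | ⟨k1, k2⟩ | ⟨k1, k2⟩ | ⟨k1, k2⟩
    · refine block_v (K := K) (a := c1 + R) (b := c1 + 3 * R) (c := c2 - 3 * R)
        (d := c2 + 3 * R) (A := c1 - 3 * R) (B := c1 + 3 * R) (by omega) hxr' kr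
        le_rfl (by simp only; omega) k1.ge
        (ext (c1 - 3 * R) (c1 + 3 * R) (c2 - 3 * R) (c2 + 3 * R - 1) (by omega) (by omega)
          (by omega) (by omega) (by unfold inR; omega))
    · refine block_v (K := K) (a := c1 - 3 * R) (b := c1 - R) (c := c2 - 3 * R)
        (d := c2 + 3 * R) (A := c1 - 3 * R - 1) (B := c1 + 3 * R - 1) (by omega) hxl' kl
        le_rfl (f := w') (g := (c1, c2)) (by omega) (by simp only; omega)
        (ext (c1 - 3 * R - 1) (c1 + 3 * R - 1) (c2 - 3 * R) (c2 + 3 * R - 1) (by omega)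
          (by omega) (by omega) (by omega) (by unfold inR; omega)).symm
    · refine block_h (K := K) (a := c1 - 3 * R) (b := c1 + 3 * R) (c := c2 + R)
        (d := c2 + 3 * R) (C := c2 - 3 * R) (D := c2 + 3 * R) (by omega) hyt' kt
        le_rfl (by simp only; omega) k1.ge
        (ext (c1 - 3 * R) (c1 + 3 * R - 1) (c2 - 3 * R) (c2 + 3 * R) (by omega) (by omega)
          (by omega) (by omega) (by unfold inR; omega))
    · refine block_h (K := K) (a := c1 - 3 * R) (b := c1 + 3 * R) (c := c2 - 3 * R)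
        (d := c2 - R) (C := c2 - 3 * R - 1) (D := c2 + 3 * R - 1) (by omega) hyb' kb
        le_rfl (f := w') (g := (c1, c2)) (by omega) (by simp only; omega)
        (ext (c1 - 3 * R) (c1 + 3 * R - 1) (c2 - 3 * R - 1) (c2 + 3 * R - 1) (by omega)
          (by omega) (by omega) (by omega) (by unfold inR; omega)).symm

end Pool.Agent.J6H95.SL
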