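import Pool.Agent.J6H18.SL.Stm
import Pool.Agent.J6H95.SL.Hub
import Pool.Agent.Y989.SD.Main

/-!
Project SL (helper18), item PL (helper95): lower bound for the probability that the clusters of a
boundary arc separate a face from the complementary arc.
-/

set_option autoImplicit false

namespace Pool.Agent.J6H95.SL

open Finset H974
open H973 (ES mem_ES EV reach_mem mem_RE_ends mem_RE_of_ends BX mem_BX dlt dlt_pos dlt_le)
open Pool.Agent.Y989.SD (disc cir pos TD SmW near hf btT Win HT Lp emb QB mem_QB GDc mem_disc)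
open TH976 (sd sd_self sd_comm sd_tri fkg incr_and)
open Pool.Agent.J6H18.GD (Jn Ct Rd GD eS Jn_incr reach_ball pos_le_sd sd_pos_le)
open Pool.Agent.J6H18.SL
open Pool.Agent.H389R2.CD (ArS)
open Pool.Agent.J6H72.LP (Wt)

/-! ### two connected sets -/

theorem adj_up {V : Vtx → Prop} {x y : ℤ} (h1 : V (x, y)) (h2 : V (x, y + 1)) :
    Adj (EV V) (x, y) (x, y + 1) := ⟨(x, y, false), ⟨h1, h2⟩, Or.inl ⟨rfl, rfl⟩⟩

theorem adj_right {V : Vtx → Prop} {x y : ℤ} (h1 : V (x, y)) (h2 : V (x + 1, y)) :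
    Adj (EV V) (x, y) (x + 1, y) := ⟨(x, y, true), ⟨h1, h2⟩, Or.inl ⟨rfl, rfl⟩⟩

theorem adj_emb {V : Vtx → Prop} {e v : Vtx}
    (he : e = (0, 1) ∨ e = (1, 0) ∨ e = (0, -1) ∨ e = (-1, 0)) {j : ℤ}
    (h1 : V (emb e v (0, j))) (h2 : V (emb e v (0, j + 1))) :
    Adj (EV V) (emb e v (0, j)) (emb e v (0, j + 1)) := by
  obtain ⟨v1, v2⟩ := v
  rcases he with rfl | rfl | rfl | rfl
  · have e1 : emb (0, 1) (v1, v2) (0, j) = (v1, v2 + j) := by simp [emb]
    have e2 : emb (0, 1) (v1, v2) (0, j + 1) = (v1, v2 + j + 1) := by simp [emb]; ring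
    rw [e1] at h1 ⊢
    rw [e2] at h2 ⊢
    exact adj_up h1 h2
  · have e1 : emb (1, 0) (v1, v2) (0, j) = (v1 + j, v2) := by simp [emb]
    have e2 : emb (1, 0) (v1, v2) (0, j + 1) = (v1 + j + 1, v2) := by simp [emb]; ring
    rw [e1] at h1 ⊢
    rw [e2] at h2 ⊢
    exact adj_right h1 h2
  · have e1 : emb (0, -1) (v1, v2) (0, j) = (v1, v2 - j - 1 + 1) := by simp [emb]; ring
    have e2 : emb (0, -1) (v1, v2) (0, j + 1) = (v1, v2 - j - 1) := by simp [emb]; ring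
    rw [e1] at h1 ⊢
    rw [e2] at h2 ⊢
    exact (adj_up h2 h1).symm
  · have e1 : emb (-1, 0) (v1, v2) (0, j) = (v1 - j - 1 + 1, v2) := by simp [emb]; ring
    have e2 : emb (-1, 0) (v1, v2) (0, j + 1) = (v1 - j - 1, v2) := by simp [emb]; ring
    rw [e1] at h1 ⊢
    rw [e2] at h2 ⊢
    exact (adj_right h2 h1).symm

theorem sd_emb {e v : Vtx} (he : e = (0, 1) ∨ e = (1, 0) ∨ e = (0, -1) ∨ e = (-1, 0)) (j : ℕ) :
    sd (emb e v (0, (j : ℤ))) v = j := by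
  obtain ⟨v1, v2⟩ := v
  rcases he with rfl | rfl | rfl | rfl
  all_goals
    simp only [emb, sd]
    omega

/-- the vertical segment at the base of a window -/
theorem exists_seg {T : Finset Vtx} {v : Vtx} {L : ℤ} {B α : ℝ} (h : Win T v L B α) {r : ℕ}
    (hr : 1 ≤ r) (hrL : (r : ℤ) ≤ L) :
    ∃ A : Finset Vtx, (∀ u ∈ A, u ∈ T) ∧ Ct A ∧ Rd A v r := by
  obtain ⟨e, he, hh, s, hLp, -, -, hT⟩ := h
  have hm : ∀ j : ℕ, j ≤ r → emb e v (0, (j : ℤ)) ∈ (Finset.range (r + 1)).image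
      fun j : ℕ => emb e v (0, (j : ℤ)) := fun j hj =>
    Finset.mem_image.mpr ⟨j, Finset.mem_range.mpr (by omega), rfl⟩
  generalize hA : (Finset.range (r + 1)).image (fun j : ℕ => emb e v (0, (j : ℤ))) = A at hm
  have hA' : ∀ u ∈ A, ∃ j : ℕ, j ≤ r ∧ u = emb e v (0, (j : ℤ)) := by
    intro u hu
    rw [← hA, Finset.mem_image] at hu
    obtain ⟨j, hj, rfl⟩ := hu
    exact ⟨j, by have := Finset.mem_range.mp hj; omega, rfl⟩
  have h0 : emb e v (0, ((0 : ℕ) : ℤ)) = v := by simp [emb]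
  have hre : ∀ j : ℕ, j ≤ r → Reach (EV fun y => y ∈ A) v (emb e v (0, (j : ℤ))) := by
    intro j
    induction j with
    | zero => intro _; rw [h0]; exact Reach.refl _ _
    | succ j ih =>
      intro hj
      refine (ih (by omega)).trans (Adj.reach ?_)
      have h1 := hm j (by omega)
      have h2 := hm (j + 1) hj
      push_cast at h2 ⊢
      exact adj_emb (V := fun y => y ∈ A) he h1 h2
  refine ⟨A, ?_, ?_, ?_, hr, ?_, ?_⟩
  · intro u hu
    obtain ⟨j, hj, rfl⟩ := hA' u hu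
    refine (hT (0, (j : ℤ)) ?_).mpr ?_
    · rw [mem_QB]
      simp only
      omega
    · simp only
      rw [hLp.zero]
      omega
  · intro u hu w hw
    obtain ⟨i, hi, rfl⟩ := hA' u hu
    obtain ⟨j, hj, rfl⟩ := hA' w hw
    exact (hre i hi).symm.trans (hre j hj)
  · have := hm 0 (by omega)
    rwa [h0] at this
  · intro u hu
    obtain ⟨j, hj, rfl⟩ := hA' u hu
    rw [sd_emb he]
    exact hj
  · right
    refine ⟨_, hm r le_rfl, ?_⟩
    rw [sd_emb he]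
    omega

theorem mem_BX_sd {z u : Vtx} {b : ℕ} : u ∈ BX z b ↔ sd u z ≤ b := by
  rw [mem_BX]
  unfold sd
  omega

theorem Ct_BX (z : Vtx) (b : ℕ) : Ct (BX z b) := by
  have key : ∀ u ∈ BX z b, Reach (EV fun y => y ∈ BX z b) z u := by
    intro u hu
    rw [mem_BX_sd] at hu
    refine (reach_ball z u b (by rw [sd_comm]; exact hu)).mono ?_
    rintro e ⟨h1, h2⟩
    refine ⟨mem_BX_sd.mpr ?_, mem_BX_sd.mpr ?_⟩
    · rw [sd_comm]; exact h1
    · rw [sd_comm]; exact h2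
  intro u hu w hw
  exact (key u hu).symm.trans (key w hw)

theorem Rd_BX (z : Vtx) {b : ℕ} (hb : 1 ≤ b) : Rd (BX z b) z b := by
  refine ⟨mem_BX_sd.mpr (by rw [sd_self]; omega), hb, fun u hu => mem_BX_sd.mp hu, Or.inr
    ⟨(z.1 + b, z.2), mem_BX_sd.mpr ?_, ?_⟩⟩
  · unfold sd; simp only; omega
  · unfold sd; simp only; omega

/-! ### the event -/

theorem det {f : ℂ → ℂ} {ε θ1 θ2 : ℝ} {z v : Vtx} {b r : ℕ} {A : Finset Vtx} {F : Finset Edg}
    (hF : F ⊆ ES (TD f ε)) (hb : 1 ≤ b) (hAT : ∀ u ∈ A, u ∈ TD f ε)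
    (hAv : ∀ u ∈ A, sd u v ≤ r) (hBT : ∀ u ∈ BX z b, u ∈ TD f ε)
    (hBv : ∀ u ∈ BX z b, 64 * r ≤ sd u v)
    (hI : ∀ u, btT (TD f ε) u → sd u v ≤ 64 * r → u ∈ near f ε θ1 θ2)
    (hIz : ∀ u ∈ near f ε θ1 θ2, 3 * b ≤ sd u z)
    (hJz : ∀ g ∈ touch f ε θ2 (θ1 + 2 * Real.pi), 3 * b < sd g z)
    (h1 : Jn A (BX z b) F) (h2 : HT (TD f ε) v r (64 * r) F) (h3 : CE z b F) :
    Sep f ε θ1 θ2 z F := by
  obtain ⟨u, hu, x, hx, hux⟩ := h1
  obtain ⟨z1, hz1T, hz1B, hbt, hblk⟩ := h2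
  obtain ⟨z0, hm, hd⟩ := CE_hub hb h3
  have hz1 : z1 ∈ near f ε θ1 θ2 := by
    refine hI z1 hbt ?_
    have h4 : z1 ∈ BX v ((64 * r : ℕ) : ℤ) := by push_cast; exact hz1B
    exact mem_BX_sd.mp h4
  have hxv := hBv x hx
  have m1 : Reach (↑F) z1 u := Pool.Agent.Y989.SD.ALO.join hF hblk (hAT u hu)
    (mem_BX_sd.mpr (hAv u hu)) (hBT x hx) (by
      rw [mem_BX]
      unfold sd at hxv
      omega) hux
  have m2 : Reach (↑F) x z0 := hm x z1 (mem_BX_sd.mp hx) (hIz z1 hz1) (m1.trans hux).symm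
  have m3 : Reach (↑F) z1 z0 := (m1.trans hux).trans m2
  intro g hg hr
  refine hd g (hJz g hg) (hr.mono ?_)
  rintro e ⟨he, hne⟩ hw
  exact hne ⟨hw.1, z1, hz1, m3.trans hw.2⟩

/-! ### elementary estimates -/

theorem ratio {τ C ε n D m d s : ℝ} (hτ : 0 < τ) (hC : 0 < C) (hε : 0 < ε) (hn : 0 < n)
    (hD : 0 ≤ D) (h1 : τ * m ≤ 2 * (n * ε)) (h2 : n * ε + ε * D ≤ C * d)
    (hs : s * d ≤ m) (hs0 : 0 ≤ s) : τ / (2 * C) * s ≤ n / (n + D) := by
  rw [div_mul_eq_mul_div, div_le_div_iff₀ (by positivity) (by positivity)]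
  have h3 : ε * (n + D) ≤ C * d := by linarith
  have h4 : τ * s * (ε * (n + D)) ≤ τ * s * (C * d) :=
    mul_le_mul_of_nonneg_left h3 (by positivity)
  have h5 : τ * s * (C * d) = C * (τ * (s * d)) := by ring
  have h6 : C * (τ * (s * d)) ≤ C * (τ * m) :=
    mul_le_mul_of_nonneg_left (mul_le_mul_of_nonneg_left hs hτ.le) hC.le
  have h7 : C * (τ * m) ≤ C * (2 * (n * ε)) := mul_le_mul_of_nonneg_left h1 hC.le
  refine le_of_mul_le_mul_left ?_ hε
  calc ε * (τ * s * (n + D)) = τ * s * (ε * (n + D)) := by ring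
    _ ≤ C * (2 * (n * ε)) := by linarith
    _ = ε * (n * (2 * C)) := by ring

theorem flo {x ε : ℝ} (hε : 0 < ε) (hx : 10 * ε ≤ x) : (⌊x / ε⌋₊ : ℝ) * ε ≤ x ∧
    x ≤ 2 * ((⌊x / ε⌋₊ : ℝ) * ε) ∧ 1 ≤ ⌊x / ε⌋₊ := by
  have h0 : 0 ≤ x / ε := by
    have : 0 ≤ x := by linarith
    positivity
  have h1 := Nat.floor_le h0
  have h2 := Nat.lt_floor_add_one (x / ε)
  rw [le_div_iff₀ hε] at h1
  rw [div_lt_iff₀ hε] at h2
  have h3 : 1 ≤ ⌊x / ε⌋₊ := by
    apply Nat.le_floor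
    rw [le_div_iff₀ hε]
    push_cast
    linarith
  refine ⟨h1, ?_, h3⟩
  have h4 : (1 : ℝ) ≤ ⌊x / ε⌋₊ := by exact_mod_cast h3
  nlinarith

theorem cen_pos {ε : ℝ} (hε : 0 < ε) (z : Vtx) : ‖cen ε z - pos ε z‖ ≤ ε := by
  refine (Complex.norm_le_abs_re_add_abs_im _).trans ?_
  have e1 : (cen ε z - pos ε z).re = ε / 2 := by
    simp only [cen, pos, Complex.sub_re]; ring
  have e2 : (cen ε z - pos ε z).im = ε / 2 := by
    simp only [cen, pos, Complex.sub_im]; ring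
  rw [e1, e2, abs_of_pos (by positivity)]
  linarith

theorem sqr_pos {ε : ℝ} (hε : 0 < ε) {g : Vtx} {p : ℂ} (h : p ∈ sqr ε g) :
    ‖p - pos ε g‖ ≤ 2 * ε := by
  obtain ⟨⟨h1, h2⟩, h3, h4⟩ := h
  refine (Complex.norm_le_abs_re_add_abs_im _).trans ?_
  have e1 : (p - pos ε g).re = p.re - ε * g.1 := by simp only [pos, Complex.sub_re]
  have e2 : (p - pos ε g).im = p.im - ε * g.2 := by simp only [pos, Complex.sub_im]
  rw [e1, e2]
  have h5 : |p.re - ε * g.1| ≤ ε := by rw [abs_le]; constructor <;> nlinarith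
  have h6 : |p.im - ε * g.2| ≤ ε := by rw [abs_le]; constructor <;> nlinarith
  linarith

theorem norm_cir (θ : ℝ) : ‖cir θ‖ = 1 := Complex.norm_exp_ofReal_mul_I θ

theorem cir_mem (θ : ℝ) : cir θ ∈ disc := by
  rw [mem_disc, norm_cir]

/-- the nearest point of the arc -/
theorem ad_spec (w : ℂ) {θ1 θ2 : ℝ} (h : θ1 < θ2) : ∃ θ, θ1 ≤ θ ∧ θ ≤ θ2 ∧
    ad w θ1 θ2 = ‖w - cir θ‖ ∧ ∀ θ', θ1 ≤ θ' → θ' ≤ θ2 → ad w θ1 θ2 ≤ ‖w - cir θ'‖ := by
  have hc : Continuous cir := by unfold cir; fun_prop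
  have h1 : IsCompact (arc θ1 θ2) := isCompact_Icc.image hc
  have h2 : (arc θ1 θ2).Nonempty := ⟨cir θ1, θ1, ⟨le_rfl, h.le⟩, rfl⟩
  obtain ⟨y, ⟨θ, hθ, rfl⟩, hy⟩ := h1.exists_infDist_eq_dist h2 w
  refine ⟨θ, hθ.1, hθ.2, ?_, ?_⟩
  · unfold ad; rw [hy, dist_eq_norm]
  · intro θ' h3 h4
    unfold ad
    rw [← dist_eq_norm]
    exact Metric.infDist_le_dist_of_mem ⟨θ', ⟨h3, h4⟩, rfl⟩

theorem clamp {θ1 θ2 θ l : ℝ} (h1 : θ1 ≤ θ) (h2 : θ ≤ θ2) (hl : 0 ≤ l) (h : l ≤ θ2 - θ1) :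
    ∃ θ0, θ1 + l / 2 ≤ θ0 ∧ θ0 ≤ θ2 - l / 2 ∧ |θ0 - θ| ≤ l / 2 := by
  refine ⟨max (θ1 + l / 2) (min θ (θ2 - l / 2)), le_max_left _ _, ?_, ?_⟩
  · exact max_le (by linarith) (min_le_right _ _)
  · rcases le_total θ (θ2 - l / 2) with h3 | h3
    · rw [min_eq_left h3]
      rcases le_total (θ1 + l / 2) θ with h4 | h4
      · rw [max_eq_right h4, sub_self, abs_zero]; linarith
      · rw [max_eq_left h4, abs_le]; constructor <;> linarith
    · rw [min_eq_right h3]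
      rcases le_total (θ1 + l / 2) (θ2 - l / 2) with h4 | h4
      · rw [max_eq_right h4, abs_le]; constructor <;> linarith
      · rw [max_eq_left h4, abs_le]; constructor <;> linarith

/-- **Item PL.** -/
theorem t_PL (hA : ArS) (hJ : S_JNL) : S_PL := by
  intro f g M α hfs
  obtain ⟨l, H, hl, hH, hlip, -, -, hK, hint⟩ := Pool.Agent.Y989.SD.m_GA f g M α hfs
  obtain ⟨ρ, B, ε0, hρ, hε0, hG⟩ := Pool.Agent.Y989.SD.m_GD f g M α hfs
  obtain ⟨c0, ε1, κ, k, hc0, hε1, hgd⟩ := Pool.Agent.J6H18.GD.gd_D hA hfs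
  obtain ⟨c1, hc1, hJn⟩ := hJ κ k
  obtain ⟨c2, C2, hc2, -, hW⟩ := Pool.Agent.Y989.SD.m_WIN B α hfs.al0
  obtain ⟨τ, hτ0, hτl, hτρ, hτ1⟩ : ∃ τ : ℝ, 0 < τ ∧ 1000 * τ ≤ l ∧ 1000 * τ ≤ ρ ∧
      1000 * τ ≤ 1 := by
    refine ⟨min (l / 1000) (min (ρ / 1000) (1 / 1000)), by positivity, ?_, ?_, ?_⟩
    · have := min_le_left (l / 1000) (min (ρ / 1000) (1 / 1000))
      linarith
    · have := (min_le_right (l / 1000) (min (ρ / 1000) (1 / 1000))).trans (min_le_left _ _)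
      linarith
    · have := (min_le_right (l / 1000) (min (ρ / 1000) (1 / 1000))).trans (min_le_right _ _)
      linarith
  obtain ⟨C, hC⟩ : ∃ C : ℝ, C = 2 * H + 2 := ⟨_, rfl⟩
  have hC0 : 0 < C := by rw [hC]; positivity
  obtain ⟨σ, hσ⟩ : ∃ σ : ℝ, σ = τ / (2 * C) := ⟨_, rfl⟩
  have hσ0 : 0 < σ := by rw [hσ]; positivity
  have hd0 := dlt_pos
  refine ⟨10 / τ, c1 * (σ ^ (1 / 3 : ℝ) * σ ^ (1 / 3 : ℝ)) * c2 * dlt ^ 4, min ε0 ε1,
    by positivity, by positivity, lt_min hε0 hε1, ?_⟩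
  intro ε θ1 θ2 z w hεε hDt
  obtain ⟨hε, h12, h21, hI, hJ', hw, hz⟩ := hDt
  have hGε : GDc f ε ρ B α := hG ε hε (hεε.trans (min_le_left _ _))
  obtain ⟨-, hgdε⟩ := hgd ε hε (hεε.trans (min_le_right _ _))
  rw [div_mul_eq_mul_div, div_le_iff₀ hτ0] at hI hw
  obtain ⟨θq, hq1, hq2, hqd, hqm⟩ := ad_spec w h12
  unfold gh
  generalize ad w θ1 θ2 = d at *
  obtain ⟨δ, hδ⟩ : ∃ δ : ℝ, δ = 1 - ‖w‖ := ⟨_, rfl⟩
  rw [← hδ] at hw ⊢
  have hδ0 : 0 < δ := by
    by_contra hcon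
    push Not at hcon
    have := mul_nonpos_of_nonpos_of_nonneg hcon hτ0.le
    linarith
  have hwd : w ∈ disc := by rw [mem_disc]; linarith
  have hw1 : ‖w‖ < 1 := by linarith
  -- the distance between `w` and the circle
  have hcw : ∀ θ, δ ≤ ‖w - cir θ‖ := by
    intro θ
    have h1 := norm_sub_norm_le (cir θ) w
    rw [norm_cir, norm_sub_rev] at h1
    linarith
  have hδd : δ ≤ d := by rw [hqd]; exact hcw θq
  have hd0' : 0 < d := by linarith
  have hd2 : d ≤ 2 := by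
    rw [hqd]
    have h1 := norm_sub_le w (cir θq)
    rw [norm_cir] at h1
    linarith
  have hbd : ∀ θ, l * δ ≤ ‖f w - f (cir θ)‖ := by
    intro θ
    refine le_trans ?_ (hlip w hwd _ (cir_mem θ)).1
    exact mul_le_mul_of_nonneg_left (hcw θ) hl.le
  have hcen := cen_pos hε z
  rw [← hz] at hcen
  have hτδ : 0 < τ * δ := by positivity
  have hlδ : 1000 * (τ * δ) ≤ l * δ := by
    have := mul_le_mul_of_nonneg_right hτl hδ0.le
    linarith
  have hεδ : 10 * ε ≤ τ * δ := by linarith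
  -- the radii
  obtain ⟨l0, hl0⟩ : ∃ l0 : ℝ, l0 = min (θ2 - θ1) d := ⟨_, rfl⟩
  have hl01 : l0 ≤ θ2 - θ1 := by rw [hl0]; exact min_le_left _ _
  have hl0d : l0 ≤ d := by rw [hl0]; exact min_le_right _ _
  have hεl : 10 * ε ≤ τ * l0 := by
    rw [hl0, mul_min_of_nonneg _ _ hτ0.le]
    refine le_min (by linarith) ?_
    have := mul_le_mul_of_nonneg_left hδd hτ0.le
    linarith
  have hl00 : 0 < l0 := by
    by_contra hcon
    push Not at hcon
    have : τ * l0 ≤ 0 := mul_nonpos_of_nonneg_of_nonpos hτ0.le hcon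
    linarith
  obtain ⟨θ0, ha1, ha2, ha3⟩ := clamp hq1 hq2 hl00.le hl01
  obtain ⟨v, hvT, hvθ, hwin⟩ := hGε.2.1 θ0
  obtain ⟨hr1, hr2, hr3⟩ := flo hε hεl
  obtain ⟨hb1, hb2, hb3⟩ := flo hε hεδ
  generalize ⌊τ * l0 / ε⌋₊ = r at *
  generalize ⌊τ * δ / ε⌋₊ = b at *
  have hτd : τ * l0 ≤ τ * d := mul_le_mul_of_nonneg_left hl0d hτ0.le
  have hτδd : τ * δ ≤ τ * d := mul_le_mul_of_nonneg_left hδd hτ0.le
  have hτd0 : 0 < τ * d := by positivity
  have hτd1 : 1000 * (τ * d) ≤ l * d := by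
    have := mul_le_mul_of_nonneg_right hτl hd0'.le
    linarith
  have hτd2 : 1000 * (τ * d) ≤ d := by
    have := mul_le_mul_of_nonneg_right hτ1 hd0'.le
    linarith
  -- the distance between `v` and `z`
  have hq3 : ‖w - cir θ0‖ ≤ 2 * d := by
    have h1 := (Pool.Agent.Y989.SD.ALO.cir_lip θ0 θq).trans ha3
    have h2 : w - cir θ0 = (w - cir θq) - (cir θ0 - cir θq) := by ring
    rw [h2]
    refine (norm_sub_le _ _).trans ?_
    rw [← hqd]
    linarith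
  have hq4 : d ≤ ‖w - cir θ0‖ := hqm θ0 (by linarith) (by linarith)
  have hvz : pos ε v - pos ε z = (pos ε v - f (cir θ0)) + (f w - pos ε z) - (f w - f (cir θ0)) := by
    ring
  have hvz1 : ‖pos ε v - pos ε z‖ ≤ 3 * ε + H * (2 * d) := by
    have h1 := (hlip w hwd _ (cir_mem θ0)).2.trans (mul_le_mul_of_nonneg_left hq3 hH.le)
    have h2 := norm_sub_le ((pos ε v - f (cir θ0)) + (f w - pos ε z)) (f w - f (cir θ0))
    have h3 := norm_add_le (pos ε v - f (cir θ0)) (f w - pos ε z)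
    rw [hvz]
    linarith
  have hvz2 : 999 * (τ * d) ≤ ‖pos ε v - pos ε z‖ := by
    have h1 := (mul_le_mul_of_nonneg_left hq4 hl.le).trans (hlip w hwd _ (cir_mem θ0)).1
    have h2 : f w - f (cir θ0) = (pos ε v - f (cir θ0)) + (f w - pos ε z) -
      (pos ε v - pos ε z) := by ring
    rw [h2] at h1
    have h3 := norm_sub_le ((pos ε v - f (cir θ0)) + (f w - pos ε z)) (pos ε v - pos ε z)
    have h4 := norm_add_le (pos ε v - f (cir θ0)) (f w - pos ε z)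
    linarith
  -- the box around `z`
  have hbox : ∀ x : Vtx, sd x z ≤ 3 * b → ‖pos ε x - f w‖ ≤ 6 * (τ * δ) + ε := by
    intro x hx
    have h1 := pos_le_sd hε x z
    have h2 : (sd x z : ℝ) ≤ 3 * b := by exact_mod_cast hx
    have h3 : ε * (sd x z : ℝ) ≤ ε * (3 * b) := mul_le_mul_of_nonneg_left h2 hε.le
    have h4 : pos ε x - f w = (pos ε x - pos ε z) - (f w - pos ε z) := by ring
    rw [h4]
    refine (norm_sub_le _ _).trans ?_
    linarith
  have hboxT : ∀ x : Vtx, sd x z ≤ 3 * b → x ∈ TD f ε := by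
    intro x hx
    rw [hGε.1]
    by_contra hcon
    obtain ⟨θ, hθ⟩ := Pool.Agent.Y989.SD.GD.seg hK hint (Set.mem_image_of_mem f hwd) hcon
    have h1 := hbox x hx
    have h2 := hbd θ
    linarith
  have hfar : ∀ (x : Vtx) (θ : ℝ), ‖f (cir θ) - pos ε x‖ ≤ 2 * ε → 3 * b < sd x z := by
    intro x θ h1
    by_contra hcon
    push Not at hcon
    have h2 := hbox x hcon
    have h3 := hbd θ
    have h4 : f w - f (cir θ) = -(pos ε x - f w) - (f (cir θ) - pos ε x) := by ring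
    rw [h4] at h3
    have h5 := norm_sub_le (-(pos ε x - f w)) (f (cir θ) - pos ε x)
    rw [norm_neg] at h5
    linarith
  -- the window
  have h128 : 128 * (r : ℤ) ≤ ⌊ρ / ε⌋ := by
    rw [Int.le_floor, le_div_iff₀ hε]
    push_cast
    have := mul_le_mul_of_nonneg_left hd2 hτ0.le
    linarith
  obtain ⟨A, hAT, hAc, hAr⟩ := exists_seg hwin (r := r) hr3 (by omega)
  obtain ⟨-, -, -, hHT⟩ := hW _ v _ hwin r r (by exact_mod_cast hr3) le_rfl (by omega)
  have hHT := hHT h128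
  -- the events
  obtain ⟨D, hD⟩ : ∃ D, D = sd v z := ⟨_, rfl⟩
  have hD1 : 1 ≤ D := by
    by_contra hcon
    have h1 : sd v z = 0 := by omega
    have h2 := pos_le_sd hε v z
    rw [h1] at h2
    push_cast at h2
    linarith
  have hDε : ε * (D : ℝ) ≤ 3 * ε + H * (2 * d) := by
    rw [hD]; exact (sd_pos_le hε v z).trans hvz1
  have p1 := hJn (TD f ε) _ hgdε A (BX z b) v z r b D hAT
    (fun u hu => hboxT u (by have := mem_BX_sd.mp hu; omega)) hAc (Ct_BX z b) hAr (Rd_BX z hb3)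
    hD1 hD.symm
  have p3 : dlt ^ 4 ≤ Pr Pool.Agent.H160R2.CV.P (ES (TD f ε)) (CE z b) := by
    apply pr_CE hb3
    intro e he
    obtain ⟨h1, h2⟩ := mem_RE_ends he
    unfold inR at h1 h2
    rw [mem_ES]
    refine ⟨hboxT _ ?_, hboxT _ ?_⟩ <;> unfold sd <;> omega
  have hP : (Pool.Agent.H160R2.CV.P : Edg → ℝ) = hf := rfl
  have iHT := Pool.Agent.Y989.SD.ARM1.HT_incr (TD f ε) v r (64 * r)
  have q1 := fkg (Jn_incr (ES (TD f ε)) A (BX z b)) iHT hc2.le p1 hHT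
  have q2 := fkg (incr_and (Jn_incr (ES (TD f ε)) A (BX z b)) iHT) (CE_incr (ES (TD f ε)) z b)
    (by positivity) q1 p3
  have hr0 : (0 : ℝ) < r := by exact_mod_cast hr3
  have hb0 : (0 : ℝ) < b := by exact_mod_cast hb3
  have hsum : 3 * ε + H * (2 * d) + τ * d ≤ C * d := by
    rw [hC]
    linarith
  -- the ratios
  have t1 : σ * ((θ2 - θ1) / (θ2 - θ1 + d)) ≤ (r : ℝ) / (r + D) := by
    rw [hσ]
    refine ratio hτ0 hC0 hε hr0 (Nat.cast_nonneg D) hr2 (d := d) (by linarith) ?_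
      (div_nonneg (by linarith) (by linarith))
    rw [div_mul_eq_mul_div, div_le_iff₀ (by linarith), hl0]
    rcases le_total (θ2 - θ1) d with h1 | h1
    · rw [min_eq_left h1]
      have := mul_self_nonneg (θ2 - θ1)
      linarith
    · rw [min_eq_right h1]
      have := mul_self_nonneg d
      linarith
  have t2 : σ * (δ / (δ + d)) ≤ (b : ℝ) / (b + D) := by
    rw [hσ]
    refine ratio hτ0 hC0 hε hb0 (Nat.cast_nonneg D) hb2 (d := d) (by linarith) ?_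
      (div_nonneg (by linarith) (by linarith))
    rw [div_mul_eq_mul_div, div_le_iff₀ (by linarith)]
    have := mul_self_nonneg δ
    linarith
  have a1 : 0 ≤ (θ2 - θ1) / (θ2 - θ1 + d) := div_nonneg (by linarith) (by linarith)
  have a2 : 0 ≤ δ / (δ + d) := div_nonneg (by linarith) (by linarith)
  have t3 : σ ^ (1 / 3 : ℝ) * σ ^ (1 / 3 : ℝ) *
      (δ / (δ + d) * ((θ2 - θ1) / (θ2 - θ1 + d))) ^ (1 / 3 : ℝ) ≤
      ((r : ℝ) / (r + D)) ^ (1 / 3 : ℝ) * ((b : ℝ) / (b + D)) ^ (1 / 3 : ℝ) := by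
    rw [Real.mul_rpow a2 a1]
    have s1 : σ ^ (1 / 3 : ℝ) * ((θ2 - θ1) / (θ2 - θ1 + d)) ^ (1 / 3 : ℝ) ≤
        ((r : ℝ) / (r + D)) ^ (1 / 3 : ℝ) := by
      rw [← Real.mul_rpow hσ0.le a1]
      exact Real.rpow_le_rpow (by positivity) t1 (by norm_num)
    have s2 : σ ^ (1 / 3 : ℝ) * (δ / (δ + d)) ^ (1 / 3 : ℝ) ≤
        ((b : ℝ) / (b + D)) ^ (1 / 3 : ℝ) := by
      rw [← Real.mul_rpow hσ0.le a2]
      exact Real.rpow_le_rpow (by positivity) t2 (by norm_num)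
    have s3 := mul_le_mul s1 s2 (by positivity) (by positivity)
    refine le_trans (le_of_eq ?_) s3
    ring
  calc c1 * (σ ^ (1 / 3 : ℝ) * σ ^ (1 / 3 : ℝ)) * c2 * dlt ^ 4 *
        (δ / (δ + d) * ((θ2 - θ1) / (θ2 - θ1 + d))) ^ (1 / 3 : ℝ)
      = c1 * (σ ^ (1 / 3 : ℝ) * σ ^ (1 / 3 : ℝ) *
        (δ / (δ + d) * ((θ2 - θ1) / (θ2 - θ1 + d))) ^ (1 / 3 : ℝ)) * c2 * dlt ^ 4 := by ring
    _ ≤ c1 * (((r : ℝ) / (r + D)) ^ (1 / 3 : ℝ) * ((b : ℝ) / (b + D)) ^ (1 / 3 : ℝ)) * c2 *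
        dlt ^ 4 := by
      apply mul_le_mul_of_nonneg_right _ (by positivity)
      apply mul_le_mul_of_nonneg_right _ hc2.le
      exact mul_le_mul_of_nonneg_left t3 hc1.le
    _ ≤ _ := q2
    _ ≤ _ := by
      rw [hP]
      refine Pr_mono (p := hf) H973.okhalf ?_
      rintro F hF ⟨⟨k1, k2⟩, k3⟩
      refine det hF hb3 hAT hAr.le (fun u hu => hboxT u (by have := mem_BX_sd.mp hu; omega)) ?_ ?_
        ?_ ?_ k1 k2 k3
      · -- the box is far from `v`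
        intro u hu
        by_contra hcon
        push Not at hcon
        have h1 := mem_BX_sd.mp hu
        have h2 := sd_tri v u z
        rw [sd_comm v u] at h2
        have h3 : (sd v z : ℝ) ≤ 64 * r + b := by
          have : sd v z ≤ 64 * r + b := by omega
          exact_mod_cast this
        have h4 := pos_le_sd hε v z
        have h5 : ε * (sd v z : ℝ) ≤ ε * (64 * r + b) := mul_le_mul_of_nonneg_left h3 hε.le
        linarith
      · -- the boundary vertices near `v`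
        intro u hu huv
        obtain ⟨θ', hθ'⟩ := hGε.2.2 u hu
        obtain ⟨θ'', e1, e2⟩ := Pool.Agent.Y989.SD.ARM1.choose_arg θ0 θ'
        have h1 := pos_le_sd hε u v
        have h2 : (sd u v : ℝ) ≤ 64 * r := by exact_mod_cast huv
        have h3 : ε * (sd u v : ℝ) ≤ ε * (64 * r) := mul_le_mul_of_nonneg_left h2 hε.le
        have h4 : ‖f (cir θ') - f (cir θ0)‖ ≤ 129 * (τ * l0) := by
          have h5 : f (cir θ') - f (cir θ0) = -(pos ε u - f (cir θ')) + (pos ε u - pos ε v) +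
            (pos ε v - f (cir θ0)) := by ring
          rw [h5]
          refine norm_add₃_le.trans ?_
          rw [norm_neg]
          linarith
        have h6 : ‖cir θ' - cir θ0‖ ≤ 129 / 1000 * l0 := by
          have h7 := (hlip _ (cir_mem θ') _ (cir_mem θ0)).1.trans h4
          have h8 : 129 * (τ * l0) ≤ l * (129 / 1000 * l0) := by
            have := mul_le_mul_of_nonneg_right hτl hl00.le
            linarith
          exact le_of_mul_le_mul_left (h7.trans h8) hl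
        have h9 : |θ'' - θ0| ≤ l0 / 2 := by
          refine e2.trans ?_
          have h5 := Real.pi_lt_d2
          have h7 := Real.pi_pos
          calc Real.pi / 2 * ‖cir θ' - cir θ0‖ ≤ Real.pi / 2 * (129 / 1000 * l0) :=
                mul_le_mul_of_nonneg_left h6 (by positivity)
            _ ≤ _ := by
              have := mul_le_mul_of_nonneg_right h5.le hl00.le
              linarith
        have h10 := abs_le.mp h9
        refine ⟨hu.1, θ'', by linarith, by linarith, ?_⟩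
        rw [e1]
        linarith
      · rintro u ⟨-, θ, -, -, hθ⟩
        have := hfar u θ (by rw [norm_sub_rev]; exact hθ)
        omega
      · rintro g ⟨θ, -, -, hθ⟩
        exact hfar g θ (sqr_pos hε hθ)

end Pool.Agent.J6H95.SL
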